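import Pool.Agent.H5.TP.Layer

/-!
# Thickened spaces of all dimensions

Let `χ_𝒟(X)` be the chromatic number of `X` for the set `𝒟` of forbidden distances. As `δ` decreases to
`0` the numbers `χ_[1-δ,1+δ](ℝⁿ)` decrease, so they are equal to a number `Q(n)` for all small `δ > 0`.
It is known that `Q(2) = 7`.

Q1 asks whether there is `k` with `χ_{1}(ℝ² × [0, ε]ᵏ) = 7` for all small `ε > 0`. The library answers
this: it is so for all `k ≥ 4 · 10²²⁰`. Here the statement is proved in all dimensions and for layers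
of all shapes: for every `n`, every `k ≥ 4 · 10⁶²⁰ · Q(n)¹²⁸` and every set `Y ⊂ ℝᵏ` with nonempty
interior `χ_{1}(ℝⁿ × Y) ≥ Q(n)`, with equality if the diameter of `Y` is small, where small depends on
`n` and not on `k` or `Y`. In particular `χ_{1}(ℝⁿ × [0, ε]ᵏ) = Q(n)` for all small `ε > 0`. More
precisely, for `k ≥ 4 · 10⁶²⁰ · q¹²⁸` colourings of `ℝⁿ × Y` with `q` colours give colourings of `ℝⁿ` with
`q` colours that avoid an interval of distances. The dimension `k` needed depends only on the number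
`q` of colours, and not on `n`.

**Proof of the lower bound.** As in the library: in the fibre one takes the points of a lattice box in
a thin shell. By the circle method two subsets of the shell of relative density `1/q` realise every
even squared distance of a fixed window. The library has this for `q = 6`, where the main arc can be
taken as long as the inverse width of the shell. For general `q` the shell has the inverse width `L⁴` and
the main arc the length `L³`, with `L = 10⁹ q²` (`Pool.Agent.H5.TP.cross`). The most frequent colours in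
the fibres over the points of a fine grid of `ℝⁿ`, and a limit along an ultrafilter, give the colouring
of `ℝⁿ` (`Pool.Agent.H5.TP.interval_colouring`).

Definitions (`Pool.Agent.H5.TP.Defs`): `Layer n Y` is the subset `ℝⁿ × Y` of `ℝⁿ⁺ᵏ`, `Slab n k ε` is
`ℝⁿ × [0, ε]ᵏ`, `Colourable 𝒟 X m` says that `X` has a colouring with `m` colours in which points with a
distance in `𝒟` have different colours, `chi 𝒟 X` is the least positive `m` with this property, and
`space n` is `ℝⁿ`.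
-/

set_option autoImplicit false

namespace Pool.Agent.Results.MP_75c93e_co.AllDimensions

open Finset Pool.Agent.H5.TP

/-- a slab is a layer over a cube -/
theorem slab_eq (n k : ℕ) (ε : ℝ) :
    Slab n k ε = Layer n {s : Fin k → ℝ | ∀ i, s i ∈ Set.Icc 0 ε} := rfl

theorem cube_interior (k : ℕ) {ε : ℝ} (hε : 0 < ε) :
    (interior {s : Fin k → ℝ | ∀ i, s i ∈ Set.Icc 0 ε}).Nonempty := by
  have h1 : {s : Fin k → ℝ | ∀ i, s i ∈ Set.Icc 0 ε} = Set.univ.pi fun _ => Set.Icc 0 ε := by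
    ext s
    rw [Set.mem_univ_pi]
    rfl
  rw [h1, interior_pi_set Set.finite_univ]
  refine ⟨fun _ => ε / 2, fun i _ => ?_⟩
  rw [interior_Icc]
  exact ⟨by linarith, by linarith⟩

theorem cube_small (k : ℕ) {ε η : ℝ} (h : k * ε ^ 2 ≤ η) :
    ∀ s ∈ {s : Fin k → ℝ | ∀ i, s i ∈ Set.Icc 0 ε}, ∀ t ∈ {s : Fin k → ℝ | ∀ i, s i ∈ Set.Icc 0 ε},
      ∑ i, (s i - t i) ^ 2 ≤ η := by
  intro s hs t ht
  refine le_trans ?_ h
  have h4 : ∀ i ∈ (Finset.univ : Finset (Fin k)), (s i - t i) ^ 2 ≤ ε ^ 2 := by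
    intro i _
    have e1 : s i ∈ Set.Icc 0 ε := hs i
    have e2 : t i ∈ Set.Icc 0 ε := ht i
    apply sq_le_sq'
    · linarith [e1.1, e2.2]
    · linarith [e1.2, e2.1]
  refine (Finset.sum_le_sum h4).trans ?_
  simp

theorem chi_eq {𝒟 : Set ℝ} {N : ℕ} {X : Set (EuclideanSpace ℝ (Fin N))} {Q : ℕ} (hQ : 1 ≤ Q)
    (h1 : Colourable 𝒟 X Q) (h2 : ∀ m, Colourable 𝒟 X m → Q ≤ m) : chi 𝒟 X = Q :=
  le_antisymm (Nat.sInf_le ⟨hQ, h1⟩)
    (h2 _ (Nat.sInf_mem (s := {m : ℕ | 0 < m ∧ Colourable 𝒟 X m}) ⟨Q, hQ, h1⟩).2)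

/-- **Thickened spaces of all dimensions.** -/
theorem result :
    -- (1) thick layers: colourings of `ℝⁿ × Y` give colourings of `ℝⁿ` without an interval of distances
    (∀ n q k : ℕ, 4 * 10 ^ 620 * q ^ 128 ≤ k → ∀ Y : Set (Fin k → ℝ), (interior Y).Nonempty →
      Colourable {1} (Layer n Y) q →
      ∃ δ : ℝ, 0 < δ ∧ Colourable (Set.Icc (1 - δ) (1 + δ)) (space n) q) ∧
    -- (2) thin layers: the converse
    (∀ (n q k : ℕ) (δ : ℝ), 0 < δ → ∀ Y : Set (Fin k → ℝ),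
      (∀ s ∈ Y, ∀ t ∈ Y, ∑ i, (s i - t i) ^ 2 ≤ δ) →
      Colourable (Set.Icc (1 - δ) (1 + δ)) (space n) q → Colourable {1} (Layer n Y) q) ∧
    -- (3) the chromatic number of thick and thin layers in all dimensions
    (∀ n : ℕ, ∃ (Q : ℕ) (δ₀ : ℝ), 1 ≤ Q ∧ Q ≤ (2 * n + 4) ^ n ∧ 0 < δ₀ ∧
      (∀ δ : ℝ, 0 < δ → δ ≤ δ₀ → chi (Set.Icc (1 - δ) (1 + δ)) (space n) = Q) ∧
      ∀ k : ℕ, 4 * 10 ^ 620 * Q ^ 128 ≤ k →
        (∀ Y : Set (Fin k → ℝ), (interior Y).Nonempty →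
          (∀ m : ℕ, Colourable {1} (Layer n Y) m → Q ≤ m) ∧
          ((∀ s ∈ Y, ∀ t ∈ Y, ∑ i, (s i - t i) ^ 2 ≤ δ₀) → chi {1} (Layer n Y) = Q)) ∧
        ∀ ε : ℝ, 0 < ε → (∀ m : ℕ, Colourable {1} (Slab n k ε) m → Q ≤ m) ∧
          (k * ε ^ 2 ≤ δ₀ → chi {1} (Slab n k ε) = Q)) ∧
    -- (4) the plane
    (∀ δ : ℝ, 0 < δ → δ ≤ 3 / 100 → chi (Set.Icc (1 - δ) (1 + δ)) (space 2) = 7) ∧
    ∀ k : ℕ, 4 * 10 ^ 220 ≤ k →
      (∀ Y : Set (Fin k → ℝ), (interior Y).Nonempty →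
        (∀ m : ℕ, Colourable {1} (Layer 2 Y) m → 7 ≤ m) ∧
        ((∀ s ∈ Y, ∀ t ∈ Y, ∑ i, (s i - t i) ^ 2 ≤ 3 / 25) → chi {1} (Layer 2 Y) = 7)) ∧
      ∀ ε : ℝ, 0 < ε → (∀ m : ℕ, Colourable {1} (Slab 2 k ε) m → 7 ≤ m) ∧
        (k * ε ^ 2 ≤ 3 / 25 → chi {1} (Slab 2 k ε) = 7) := by
  refine ⟨fun n q k hk Y hY h => lower hk hY h, fun n q k δ hδ Y hY h => upper hδ hY h, ?_, ?_, ?_⟩
  · intro n
    classical
    have hne : ∃ m : ℕ, ∃ δ : ℝ, 0 < δ ∧ Colourable (Set.Icc (1 - δ) (1 + δ)) (space n) m :=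
      ⟨_, _, by positivity, space_colourable n⟩
    obtain ⟨Q, hQ⟩ : ∃ Q : ℕ, Q = Nat.find hne := ⟨_, rfl⟩
    have hQ1 : ∃ δ : ℝ, 0 < δ ∧ Colourable (Set.Icc (1 - δ) (1 + δ)) (space n) Q := by
      rw [hQ]
      exact Nat.find_spec hne
    have hQ2 : ∀ m : ℕ, ∀ δ : ℝ, 0 < δ → Colourable (Set.Icc (1 - δ) (1 + δ)) (space n) m →
        Q ≤ m := by
      intro m δ hδ h
      rw [hQ]
      exact Nat.find_min' hne ⟨δ, hδ, h⟩
    obtain ⟨δ₀, hδ₀, hcol⟩ := hQ1
    have hQpos : 1 ≤ Q := by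
      obtain ⟨φ, -⟩ := hcol
      have i := φ ⟨0, trivial⟩
      have := i.2
      omega
    have hlow : ∀ k : ℕ, 4 * 10 ^ 620 * Q ^ 128 ≤ k → ∀ Y : Set (Fin k → ℝ),
        (interior Y).Nonempty → ∀ m : ℕ, Colourable {1} (Layer n Y) m → Q ≤ m := by
      intro k hk Y hY m h
      by_contra hcon
      rw [not_le] at hcon
      have h1 : 4 * 10 ^ 620 * m ^ 128 ≤ k :=
        le_trans (Nat.mul_le_mul_left _ (Nat.pow_le_pow_left hcon.le _)) hk
      obtain ⟨δ, hδ, h2⟩ := lower h1 hY h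
      exact absurd (hQ2 m δ hδ h2) (not_le.2 hcon)
    have hup : ∀ k : ℕ, ∀ Y : Set (Fin k → ℝ), (∀ s ∈ Y, ∀ t ∈ Y, ∑ i, (s i - t i) ^ 2 ≤ δ₀) →
        Colourable {1} (Layer n Y) Q := fun k Y hY => upper hδ₀ hY hcol
    refine ⟨Q, δ₀, hQpos, hQ2 _ _ (by positivity) (space_colourable n), hδ₀, ?_, ?_⟩
    · intro δ hδ hδ'
      refine chi_eq hQpos (hcol.mono_dist (Set.Icc_subset_Icc ?_ ?_)) fun m h => hQ2 m δ hδ h
      · linarith
      · linarith
    · intro k hk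
      refine ⟨fun Y hY => ⟨hlow k hk Y hY, fun hsm => chi_eq hQpos (hup k Y hsm) (hlow k hk Y hY)⟩,
        fun ε hε => ?_⟩
      rw [slab_eq]
      exact ⟨hlow k hk _ (cube_interior k hε), fun h => chi_eq hQpos (hup k _ (cube_small k h))
        (hlow k hk _ (cube_interior k hε))⟩
  · intro δ hδ hδ'
    exact chi_eq (by norm_num) (plane_upper hδ') fun m h => plane_lower hδ h
  · intro k hk
    refine ⟨fun Y hY => ⟨fun m h => plane_layer_lower hk hY h, fun hsm => chi_eq (by norm_num)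
      (plane_layer_upper hsm) fun m h => plane_layer_lower hk hY h⟩, fun ε hε => ?_⟩
    rw [slab_eq]
    exact ⟨fun m h => plane_layer_lower hk (cube_interior k hε) h, fun h => chi_eq (by norm_num)
      (plane_layer_upper (cube_small k h))
      fun m h => plane_layer_lower hk (cube_interior k hε) h⟩

end Pool.Agent.Results.MP_75c93e_co.AllDimensions
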